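import Mathlib

/-!
# Project SI: simultaneous Sylow intersections in solvable groups (MP_3587c3_al)

Final theorem (`S_FIN`): `G` finite solvable, `p_i` distinct odd primes such that no power of two `2^b` dividing `|G|` is
`p_i^a + 1` (`a ≥ 1`) (for instance `|G|` odd, or no `p_i` a Mersenne prime), `P_i` Sylow `p_i`-subgroups: there is ONE `x` with
`P_i ∩ x P_i x⁻¹` normal in `G` (so it is `O_{p_i}(G)`, the least of all intersections) for all `i`.

Proof: induction over an abelian normal `r`-subgroup `V`; in `G/V` the `O_{p_i}(G/V)` commute, so their preimages in the `P_i`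
act on `V` by commuting `p_i`-groups, and one has to find ONE `v ∈ V` such that `v + w_i` has only the trivial stabilizer in the
`i`-th group, for given offsets `w_i` (`Claim`).  This is proved by induction on `|V|` with a count (`Many`).
-/

set_option autoImplicit false

namespace Pool.Agent.L7h27.SI

open Finset

section
variable {V : Type} [AddCommGroup V] {ι : Type} {N : ι → Type} [∀ i, Group (N i)]

/-- `v` is good: an element of `N i` which fixes `v + w i` acts trivially on `V`, for every `i` -/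
def Good (ρ : ∀ i, N i →* AddMonoid.End V) (w : ι → V) (v : V) : Prop :=
  ∀ i (g : N i), ρ i g (v + w i) = v + w i → ρ i g = 1

/-- the number of the good vectors -/
noncomputable def gd (ρ : ∀ i, N i →* AddMonoid.End V) (w : ι → V) : ℕ := Nat.card {v : V // Good ρ w v}

/-- for all offsets at least `2` good vectors, and at least `2 |image of N i|` for every `i` -/
def Many (ρ : ∀ i, N i →* AddMonoid.End V) : Prop :=
  ∀ w : ι → V, 2 ≤ gd ρ w ∧ ∀ i, 2 * (ρ i).ker.index ≤ gd ρ w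

/-- `U` is invariant under all `N i` -/
def Inv (ρ : ∀ i, N i →* AddMonoid.End V) (U : AddSubgroup V) : Prop := ∀ i (g : N i), ∀ u ∈ U, ρ i g u ∈ U

/-- no proper nonzero invariant subgroup -/
def Irr (ρ : ∀ i, N i →* AddMonoid.End V) : Prop := ∀ U : AddSubgroup V, Inv ρ U → U = ⊥ ∨ U = ⊤

/-- the standing hypotheses: the `N i` are finite `p i`-groups for distinct odd primes `p i` prime to `|V|`, the actions commute,
and no power of two dividing `|V|` is `p_i ^ a + 1` -/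
structure Hyp (p : ι → ℕ) (ρ : ∀ i, N i →* AddMonoid.End V) : Prop where
  finV : Finite V
  finI : Finite ι
  finN : ∀ i, Finite (N i)
  prime : ∀ i, (p i).Prime
  inj : Function.Injective p
  odd : ∀ i, p i ≠ 2
  pg : ∀ i, IsPGroup (p i) (N i)
  cop : ∀ i, ¬ p i ∣ Nat.card V
  mers : ∀ i a b, 1 ≤ a → 2 ^ b ∣ Nat.card V → 2 ^ b ≠ p i ^ a + 1
  comm : ∀ i j, i ≠ j → ∀ (g : N i) (h : N j), ρ i g * ρ j h = ρ j h * ρ i g

end

/-- the claim for `|V| = n` -/
def Claim (n : ℕ) : Prop := ∀ (V : Type) [AddCommGroup V] (ι : Type) (N : ι → Type) [∀ i, Group (N i)] (p : ι → ℕ)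
  (ρ : ∀ i, N i →* AddMonoid.End V), Hyp p ρ → Nontrivial V → Nat.card V = n → Many ρ

/-! ## Parts -/

/-- **RED** (reducible case).  Proof: let `U` be invariant, proper, nonzero.  `N i` acts on `V/U` (use `QuotientAddGroup.map`); let
`D i ≤ N i` be the kernel of the action on `V/U`; `D i` acts on `U`.  Both families satisfy `Hyp` (`|U|`, `|V/U|` divide `|V|`).
For a good `v̄ ∈ V/U` (offsets `w̄ i`) take a lift `v₀`; the `p i`-group `D i` acts on the coset `v₀ + w i + U` of size `|U|` prime to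
`p i`, so it has a fixed point `f i` there (`IsPGroup.nonempty_fixed_point_of_prime_not_dvd_card`), put `u i = v₀ + w i - f i ∈ U`.
If `u ∈ U` is good for the family `D i` on `U` and the offsets `u i`, then `v₀ + u` is good: `g` fixing `v₀ + u + w i` fixes its image in
`V/U`, so `g ∈ D i`, so `g` fixes `u + u i` (as it fixes `f i`), so `g` is trivial on `U` and on `V/U`, so on `V`
(`g v = v + δ v` with `δ v ∈ U`, `g^n v = v + n δ v`, `g^(p^k) = 1`, `|U|` prime to `p i`).  So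
`gd(V) ≥ gd(V/U) * min gd(U)`, `≥ 2 [N i : D i] * 2 [D i : ker]` and `[N i : ker] = [N i : D i] [D i : ker]`. -/
def S_RED : Prop := ∀ (V : Type) [AddCommGroup V] (ι : Type) (N : ι → Type) [∀ i, Group (N i)] (p : ι → ℕ)
  (ρ : ∀ i, N i →* AddMonoid.End V), (∀ m < Nat.card V, Claim m) → Hyp p ρ → ∀ U : AddSubgroup V, Inv ρ U → U ≠ ⊥ → U ≠ ⊤ →
  Many ρ

/-- **FREE** (all nontrivial elements act without fixed points).  Proof: `Good` is `v ≠ - w i` for the `k` indices `i` with nontrivial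
image, so `gd ≥ |V| - k`.  The image of `N i` (order `n_i = (ρ i).ker.index`, a power of `p i`) acts freely on `V \ {0}`, so `n_i` divides
`|V| - 1`, so `n = ∏ n_i` divides `|V| - 1`, `n` is odd.  If `|V| = n + 1` then `|V|` is even; the 2-torsion `{v | 2 v = 0}` is invariant
and nonzero (Cauchy), so it is `V` (`Irr`), `|V| = 2^b`; if `k = 1` then `2^b = p_i^a + 1` contradicts `mers` (if `k = 0`, then `|V| = 2`,
all vectors are good).  So `|V| ≥ 2 n + 1` or `k ≠ 1`.  `k = 0`: `gd = |V| ≥ 2`.  `k = 1`: `gd ≥ |V| - 1 ≥ 2 n`.  `k ≥ 2`: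
`n ≥ n_i * 3^(k-1)` for every `i`, so `gd ≥ n + 1 - k ≥ 2 n_i`. -/
def S_FREE : Prop := ∀ (V : Type) [AddCommGroup V] (ι : Type) (N : ι → Type) [∀ i, Group (N i)] (p : ι → ℕ)
  (ρ : ∀ i, N i →* AddMonoid.End V), Hyp p ρ → Nontrivial V → Irr ρ →
  (∀ i (g : N i), ρ i g ≠ 1 → ∀ v : V, ρ i g v = v → v = 0) → Many ρ

/-- **PD** (group theory, `p` odd).  Proof: by induction on `|P|`.  `Z` a central subgroup of order `p`.  If `P/Z` is cyclic then `P` is
abelian, not cyclic, and the elements of order dividing `p` contain a group of order `p^2` (take any subgroup of order `p^2` in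
`{x | x^p = 1}`, which has order `≥ p^2`).  Otherwise `P/Z` has a normal subgroup of order `p^2` and exponent `p`; its preimage `K` has order
`p^3`, `K/Z` is abelian of exponent `p`, so commutators in `K` are in `Z`, central of order `p`, and `x ↦ x^p` is a homomorphism `K → Z`
(`p` odd: `(xy)^p = x^p y^p [y,x]^(p(p-1)/2)`) with kernel `Ω` of order `≥ p^2`, normal in `P`.  If `|Ω| = p^2` take it.  If `Ω = K`, a
normal subgroup of `P` of order `p^2` with `Z ≤ A ≤ K` works (a subgroup of order `p` of `K/Z` central in `P/Z`). -/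
def S_PD : Prop := ∀ (p : ℕ), p.Prime → p ≠ 2 → ∀ (P : Type) [Group P] [Finite P], IsPGroup p P → ¬ IsCyclic P →
  ∃ A : Subgroup P, A.Normal ∧ Nat.card A = p ^ 2 ∧ ∀ a ∈ A, a ^ p = 1

/-- **ZA** (the two generators).  Under `S_PD`: a finite `p`-group `P`, `p` odd, which is not cyclic, has `z ≠ 1` central with `z^p = 1` and
`a` with `a^p = 1`, `a` not a power of `z`, such that every conjugate of `a` is `a z^c` for some `c`.
Proof: `A` from `S_PD`; `z ∈ A ∩ Z(P)`, `z ≠ 1` (class equation: `P` acts on `A` by conjugation, `IsPGroup.card_modEq_card_fixedPoints`),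
`a ∈ A` not a power of `z`, so `A = {a^i z^j}`; `h a h⁻¹ = a^i z^j`, conjugation by `h` acts on `A / ⟨z⟩` (order `p`) by the power `i`,
`i^(p^m) = 1` mod `p`, so `i = 1`. -/
def S_ZA : Prop := ∀ (p : ℕ), p.Prime → p ≠ 2 → ∀ (P : Type) [Group P] [Finite P], IsPGroup p P → ¬ IsCyclic P →
  ∃ z a : P, z ≠ 1 ∧ z ^ p = 1 ∧ a ^ p = 1 ∧ (∀ h : P, h * z = z * h) ∧ (∀ j : ℕ, a * z ^ j ≠ 1) ∧
    ∀ h : P, ∃ c : ℕ, h * a * h⁻¹ = a * z ^ c

/-- the fixed vectors of `a z^j` -/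
def Vj {V : Type} [AddCommGroup V] (z a : AddMonoid.End V) (j : ℕ) : AddSubgroup V where
  carrier := {v | a ((z ^ j) v) = v}
  zero_mem' := by simp
  add_mem' := by
    intro x y hx hy
    simp only [Set.mem_ofPred_eq, map_add] at *
    rw [hx, hy]
  neg_mem' := by
    intro x hx
    simp only [Set.mem_ofPred_eq, map_neg] at *
    rw [hx]

/-- **DEC** (decomposition).  `z`, `a` commuting additive endomorphisms of a finite `V`, `z^p = 1`, `a^p = 1`, `p` prime, `p ∤ |V|`,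
`z` fixes only `0`.  Then `V` is the direct sum of the `p` subgroups `V_j = {v | a z^j v = v}`, `j < p`.
Proof: `σ_z = ∑_{k<p} z^k = 0` (its values are fixed by `z`).  `∑_{j<p} ∑_{k<p} (a z^j)^k = p + ∑_{0<k<p} a^k ∑_j z^(jk) = p`, and
`σ_j = ∑_k (a z^j)^k` has values in `V_j`, is `p` on `V_j` and `0` on `V_j'` for `j' ≠ j` (there `(a z^j)^k = z^(k(j-j'))`).  `p` is invertible
on `V`. -/
def S_DEC : Prop := ∀ (V : Type) [AddCommGroup V] [Finite V] (p : ℕ), p.Prime → ¬ p ∣ Nat.card V → ∀ z a : AddMonoid.End V,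
  z * a = a * z → z ^ p = 1 → a ^ p = 1 → (∀ v, z v = v → v = 0) →
  Function.Bijective (fun f : (∀ j : Fin p, Vj z a j) => ∑ j, (f j : V))

/-- **CNT** (count of tuples).  `|X_j| ≥ 2 s_j`, `O j k x ⊆ X_k` has at most `s_k` elements; `B` the set of the tuples `f` with
`f_(j+1) ∈ O j (j+1) (f_j)` for all `j`.  Then `|B| ≤ |X_0| ∏_{j≥1} s_j ≤ ∏ |X_j| / 2^(p-1)`, so `|Bᶜ| ≥ 2 p ∏ s_j` and `|Bᶜ| ≥ (3/4) ∏ |X_j|`. -/
def S_CNT : Prop := ∀ (p : ℕ), 3 ≤ p → ∀ (X : Fin p → Type) [∀ j, Finite (X j)] (s : Fin p → ℕ),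
  (∀ j, 2 * s j ≤ Nat.card (X j)) → ∀ O : ∀ j k : Fin p, X j → Set (X k), (∀ j k x, (O j k x).ncard ≤ s k) →
  2 * p * ∏ j, s j ≤ {f : ∀ j, X j | ¬ ∀ j k : Fin p, k.val = j.val + 1 → f k ∈ O j k (f j)}.ncard ∧
  3 * ∏ j, Nat.card (X j) ≤ 4 * {f : ∀ j, X j | ¬ ∀ j k : Fin p, k.val = j.val + 1 → f k ∈ O j k (f j)}.ncard

/-- **BST** (structure in the block case).  Proof: the fixed vectors of `z` are an invariant subgroup, not `V` (`ρ` injective, `z ≠ 1`).
If `a` commutes with `N i₀`, every `Vj (ρ z) (ρ a) j` is invariant, so `0` or `V`; not `V`; but they span `V` (`S_DEC`), contradiction; so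
some `h a h⁻¹ = a z^c`, `z^c ≠ 1`, and a power `g₀` of `h` has `g₀ a g₀⁻¹ = a z`.  The conjugates of `a` are among the `p` elements `a z^c`. -/
def S_BST : Prop := S_DEC → ∀ (V : Type) [AddCommGroup V] (ι : Type) (N : ι → Type) [∀ i, Group (N i)] (p : ι → ℕ)
  (ρ : ∀ i, N i →* AddMonoid.End V), Hyp p ρ → Nontrivial V → Irr ρ → (∀ i, Function.Injective (ρ i)) →
  ∀ (i₀ : ι) (z a : N i₀), z ≠ 1 → z ^ (p i₀) = 1 → a ^ (p i₀) = 1 → (∀ h, h * z = z * h) → (∀ j : ℕ, a * z ^ j ≠ 1) →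
  (∀ h, ∃ c : ℕ, h * a * h⁻¹ = a * z ^ c) →
  (∀ v, ρ i₀ z v = v → v = 0) ∧ (∃ g₀ : N i₀, g₀ * a * g₀⁻¹ = a * z) ∧ (Subgroup.centralizer {a}).index ≤ p i₀

/-- **BLK** (the block case).  `V` irreducible, all `ρ i` injective, `z`, `a ∈ N i₀` as in `S_ZA`.
Proof: put `p = p i₀`, `V_j = Vj (ρ z) (ρ a) j`, `j < p` (indices mod `p`).  `C_V(z)` is invariant, not `V`, so `0`; `S_DEC` applies.
`h a h⁻¹ = a z^(c h)`; `h` maps `V_j` onto `V_(j + c h)`; `N i`, `i ≠ i₀`, maps `V_j` to itself.  `M = {h : h a = a h}`.  Some `g₀ ∈ N i₀` has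
`c g₀ ≠ 0` (else every `V_j` is invariant, one of them is `V`, `a z^j` acts trivially); replacing `g₀` by a power `c g₀ = 1`; so all
`V_j` have the same size, `≠ 0` and `< V`; `[N i₀ : M] = p`.  Apply the claim to `V_j` with the groups `M i₀ = M`, `M i = N i` (as subgroups
of `N i`), offsets the components of `w i`: `a_j = gd(V_j) ≥ 2 s_{i,j}`, `s_{i,j} = [M i : kernel on V_j]`.
A tuple `(v_j)` of good vectors gives a good vector of `V` unless some `g ∈ N i₀ \ M` fixes `v + w i₀` (`Bad`).  If `g` does, a power `g'` of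
`g` has `c g' = 1` and fixes it, so `g' (v_j + w_j) = v_(j+1) + w_(j+1)`; `g' ∈ M g₀`, so `v_(j+1) + w_(j+1)` lies in the `M`-orbit of
`g₀ (v_j + w_j)` in `V_(j+1)`, which has at most `s_{i₀,j+1}` elements.  So there are at most `a_0 ∏_{j=1}^{p-1} s_{i₀,j}` bad tuples, and
`gd(V) ≥ a_0 (∏_{j≥1} a_j - ∏_{j≥1} s_{i₀,j})` with `∏_{j≥1} a_j ≥ 2^(p-1) ∏_{j≥1} s_{i₀,j}`.  For `i = i₀`: `[N : ker] ≤ p ∏_j s_{i₀,j}` and
`2 (2^(p-1) - 1) ≥ 2 p` for `p ≥ 3`.  For `i ≠ i₀`: `gd(V) ≥ (3/4) ∏ a_j ≥ (3/4) 2^p ∏ s_{i,j} ≥ 6 [N i : ker]`. -/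
def S_BLK : Prop := ∀ (V : Type) [AddCommGroup V] (ι : Type) (N : ι → Type) [∀ i, Group (N i)] (p : ι → ℕ)
  (ρ : ∀ i, N i →* AddMonoid.End V), (∀ m < Nat.card V, Claim m) → Hyp p ρ → Nontrivial V → Irr ρ →
  (∀ i, Function.Injective (ρ i)) →
  ∀ (i₀ : ι) (z a : N i₀), z ≠ 1 → z ^ (p i₀) = 1 → a ^ (p i₀) = 1 → (∀ h, h * z = z * h) → (∀ j : ℕ, a * z ^ j ≠ 1) →
  (∀ h, ∃ c : ℕ, h * a * h⁻¹ = a * z ^ c) → Many ρ

/-- **CLM** (assembly of the claim).  Strong induction on `n`; pass to `N i ⧸ (ρ i).ker` to have `ρ i` injective; reducible: `S_RED`;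
irreducible and some `N i₀` not cyclic: `S_ZA`, `S_BLK`; all `N i` cyclic: the fixed vectors of `g ∈ N i` are invariant, so `S_FREE`. -/
def S_CLM : Prop := S_RED → S_FREE → S_ZA → S_BLK → ∀ n, Claim n

/-- **ACT** (what the claim gives inside a group).  `V` a normal abelian subgroup of the finite group `G`, `≠ 1`, `D i` `p i`-subgroups,
`p i` distinct odd primes not dividing `|V|`, commuting modulo the centralizer of `V`.  For all `w i ∈ V` there is `v ∈ V` such that an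
element of `D i` which commutes with `v * w i` centralizes `V`.
Proof: the claim for `Additive V`, `N i = D i` acting by conjugation. -/
def S_ACT : Prop := (∀ n, Claim n) → ∀ (G : Type) [Group G] [Finite G] (V : Subgroup G) [V.Normal],
  (∀ x ∈ V, ∀ y ∈ V, x * y = y * x) → V ≠ ⊥ →
  ∀ (ι : Type) [Finite ι] (p : ι → ℕ), (∀ i, (p i).Prime) → Function.Injective p → (∀ i, p i ≠ 2) →
  (∀ i, ¬ p i ∣ Nat.card V) → (∀ i a b, 1 ≤ a → 2 ^ b ∣ Nat.card V → 2 ^ b ≠ p i ^ a + 1) →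
  ∀ D : ι → Subgroup G, (∀ i, IsPGroup (p i) (D i)) →
  (∀ i j, i ≠ j → ∀ g ∈ D i, ∀ h ∈ D j, ∀ x ∈ V, g * h * x * (g * h)⁻¹ = h * g * x * (h * g)⁻¹) →
  ∀ w : ι → G, (∀ i, w i ∈ V) → ∃ v ∈ V, ∀ i, ∀ g ∈ D i, g * (v * w i) = (v * w i) * g → ∀ x ∈ V, g * x = x * g

/-- the conclusion for a group: one `x` for all `i` -/
def Sim (G : Type) [Group G] : Prop := ∀ (ι : Type) [Finite ι] (p : ι → ℕ), (∀ i, (p i).Prime) → Function.Injective p →
  (∀ i, p i ≠ 2) → (∀ i a b, 1 ≤ a → 2 ^ b ∣ Nat.card G → 2 ^ b ≠ p i ^ a + 1) →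
  ∀ P : ∀ i, Sylow (p i) G, ∃ x : G, ∀ i, ((P i : Subgroup G) ⊓ (P i : Subgroup G).map (MulAut.conj x).toMonoidHom).Normal

/-- **STEP** (induction step in the group).  `V` a nontrivial abelian normal `r`-subgroup.
Proof: let `x` be a lift of the element for `G/V` and the images of the `P i`.  `K i` = preimage of `P̄ i ∩ x P̄ i x⁻¹`, normal in `G`.
If `p i = r`: `V ≤ P i`, and `P i ∩ v x P i x⁻¹ v⁻¹ = K i` for all `v ∈ V`.  If `p i ≠ r`: `D i = P i ∩ K i`, `K i = V D i`, `D i ∩ V = 1`;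
`D i' = x P i x⁻¹ ∩ K i` also; both are Sylow in `K i`, so `D i' = w i D i (w i)⁻¹` with `w i ∈ V`.  For `v ∈ V`:
`P i ∩ v x P i x⁻¹ v⁻¹ = D i ∩ (v w i) D i (v w i)⁻¹ = {d ∈ D i : d commutes with v w i}` (an element `d = u d' u⁻¹`, `u ∈ V`, has `d ≡ d'` mod
`V`, so `d = d'`).  For `i ≠ j` (both `≠ r`) `[D i, D j] ≤ K i ∩ K j ≤ V` centralizes `V`.  `S_ACT`'s conclusion gives `v` such that this is
`C_{D i}(V)` for all `i` (index type `{i // p i ≠ r}`).  It is normal in `G`: `g d g⁻¹ = v' d'` with `v' ∈ V`, `d' ∈ D i` commuting with `V`;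
a power `p^m` is `1`, so `v' = 1`. -/
def S_STEP : Prop := (∀ (G : Type) [Group G] [Finite G] (V : Subgroup G) [V.Normal],
  (∀ x ∈ V, ∀ y ∈ V, x * y = y * x) → V ≠ ⊥ →
  ∀ (ι : Type) [Finite ι] (p : ι → ℕ), (∀ i, (p i).Prime) → Function.Injective p → (∀ i, p i ≠ 2) →
  (∀ i, ¬ p i ∣ Nat.card V) → (∀ i a b, 1 ≤ a → 2 ^ b ∣ Nat.card V → 2 ^ b ≠ p i ^ a + 1) →
  ∀ D : ι → Subgroup G, (∀ i, IsPGroup (p i) (D i)) →
  (∀ i j, i ≠ j → ∀ g ∈ D i, ∀ h ∈ D j, ∀ x ∈ V, g * h * x * (g * h)⁻¹ = h * g * x * (h * g)⁻¹) →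
  ∀ w : ι → G, (∀ i, w i ∈ V) → ∃ v ∈ V, ∀ i, ∀ g ∈ D i, g * (v * w i) = (v * w i) * g → ∀ x ∈ V, g * x = x * g) →
  ∀ (G : Type) [Group G] [Finite G] (r : ℕ) (_ : r.Prime) (V : Subgroup G) [V.Normal],
  (∀ x ∈ V, ∀ y ∈ V, x * y = y * x) → V ≠ ⊥ → IsPGroup r V → Sim (G ⧸ V) → Sim G

/-- **SOLV** (assembly): a finite solvable group `≠ 1` has a nontrivial abelian normal `r`-subgroup `V` (last nontrivial term of the derived
series, elements of order dividing a prime `r` of it); induction on `|G|` with `S_STEP`. -/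
def S_SOLV : Prop := (∀ (G : Type) [Group G] [Finite G] (r : ℕ) (_ : r.Prime) (V : Subgroup G) [V.Normal],
  (∀ x ∈ V, ∀ y ∈ V, x * y = y * x) → V ≠ ⊥ → IsPGroup r V → Sim (G ⧸ V) → Sim G) →
  ∀ (G : Type) [Group G] [Finite G], Group.IsSolvable G → Sim G

end Pool.Agent.L7h27.SI
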