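import Pool.Agent.L7h27.SI.Stm

/-! # Project SI (helper27), part CNT (helper12): the count of tuples -/

set_option autoImplicit false

namespace Pool.Agent.L7h27.SI

open Finset

namespace CNT

theorem cnt_aux (n : ℕ) : ∀ (X : Fin (n + 1) → Type) [∀ j, Finite (X j)]
    (O : ∀ j k : Fin (n + 1), X j → Set (X k)), (∀ j k x, 2 * (O j k x).ncard ≤ Nat.card (X k)) →
    2 ^ n * {f : ∀ j, X j | ∀ j k : Fin (n + 1), k.val = j.val + 1 → f k ∈ O j k (f j)}.ncard ≤
      ∏ j, Nat.card (X j) := by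
  induction n with
  | zero =>
    intro X _ O _
    rw [pow_zero, one_mul, ← Nat.card_pi]
    exact Set.ncard_le_card _
  | succ n ih =>
    intro X _ O hO
    classical
    let B := {f : ∀ j, X j | ∀ j k : Fin (n + 1 + 1), k.val = j.val + 1 → f k ∈ O j k (f j)}
    let C := {g : ∀ j : Fin (n + 1), X j.castSucc |
      ∀ j k : Fin (n + 1), k.val = j.val + 1 → g k ∈ O j.castSucc k.castSucc (g j)}
    have ihC : 2 ^ n * C.ncard ≤ ∏ j : Fin (n + 1), Nat.card (X j.castSucc) :=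
      ih (fun j => X j.castSucc) (fun j k => O j.castSucc k.castSucc) (fun j k x => hO _ _ x)
    -- the injection
    have hinj : Nat.card B ≤ Nat.card (Σ g : C, O (Fin.last n).castSucc (Fin.last (n + 1)) (g.1 (Fin.last n))) := by
      refine Nat.card_le_card_of_injective (fun f : B => (⟨⟨fun j => f.1 j.castSucc, fun j k hjk => f.2 _ _ hjk⟩,
        ⟨f.1 (Fin.last (n + 1)), f.2 _ _ (by simp)⟩⟩ :
          Σ g : C, O (Fin.last n).castSucc (Fin.last (n + 1)) (g.1 (Fin.last n)))) ?_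
      rintro ⟨f, hf⟩ ⟨g, hg⟩ h
      apply Subtype.ext
      have h1 := (Sigma.mk.inj_iff.1 h).1
      have h2 := (Sigma.mk.inj_iff.1 h).2
      have h1' : (fun j : Fin (n + 1) => f j.castSucc) = fun j : Fin (n + 1) => g j.castSucc := Subtype.ext_iff.1 h1
      funext j
      refine Fin.lastCases ?_ (fun i => congrFun h1' i) j
      have h3 : HEq (⟨f (Fin.last (n + 1)), hf (Fin.last n).castSucc (Fin.last (n + 1)) (by simp)⟩ :
          {x // x ∈ O (Fin.last n).castSucc (Fin.last (n + 1)) (f (Fin.last n).castSucc)})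
          (⟨g (Fin.last (n + 1)), hg (Fin.last n).castSucc (Fin.last (n + 1)) (by simp)⟩ :
          {x // x ∈ O (Fin.last n).castSucc (Fin.last (n + 1)) (g (Fin.last n).castSucc)}) := h2
      have h4 : f (Fin.last n).castSucc = g (Fin.last n).castSucc := congrFun h1' _
      generalize_proofs p1 p2 at h3
      revert p1 h3
      rw [h4]
      intro p1 h3
      exact Subtype.ext_iff.1 (eq_of_heq h3)
    have hB : B.ncard = Nat.card B := rfl
    show 2 ^ (n + 1) * B.ncard ≤ _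
    rw [hB, Fin.prod_univ_castSucc]
    have hsum : 2 * Nat.card (Σ g : C, O (Fin.last n).castSucc (Fin.last (n + 1)) (g.1 (Fin.last n))) ≤
        C.ncard * Nat.card (X (Fin.last (n + 1))) := by
      have : Fintype C := Fintype.ofFinite _
      rw [Nat.card_sigma, Finset.mul_sum]
      calc ∑ g : C, 2 * Nat.card (O (Fin.last n).castSucc (Fin.last (n + 1)) (g.1 (Fin.last n)))
          ≤ ∑ _g : C, Nat.card (X (Fin.last (n + 1))) := Finset.sum_le_sum fun g _ => hO _ _ _
        _ = C.ncard * Nat.card (X (Fin.last (n + 1))) := by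
          rw [Finset.sum_const, Finset.card_univ, smul_eq_mul, ← Nat.card_eq_fintype_card]; rfl
    calc 2 ^ (n + 1) * Nat.card B
        ≤ 2 ^ (n + 1) * Nat.card (Σ g : C, O (Fin.last n).castSucc (Fin.last (n + 1)) (g.1 (Fin.last n))) :=
          Nat.mul_le_mul_left _ hinj
      _ = 2 ^ n * (2 * Nat.card (Σ g : C, O (Fin.last n).castSucc (Fin.last (n + 1)) (g.1 (Fin.last n)))) := by
          rw [pow_succ]; ring
      _ ≤ 2 ^ n * (C.ncard * Nat.card (X (Fin.last (n + 1)))) := Nat.mul_le_mul_left _ hsum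
      _ = (2 ^ n * C.ncard) * Nat.card (X (Fin.last (n + 1))) := by ring
      _ ≤ _ := Nat.mul_le_mul_right _ ihC

end CNT

theorem s_CNT : S_CNT := by
  intro p hp X _ s hs O hO
  obtain ⟨n, rfl⟩ : ∃ n, p = n + 1 := ⟨p - 1, by omega⟩
  have h1 := CNT.cnt_aux n X O (fun j k x => (Nat.mul_le_mul_left 2 (hO j k x)).trans (hs k))
  set B := {f : ∀ j, X j | ∀ j k : Fin (n + 1), k.val = j.val + 1 → f k ∈ O j k (f j)} with hB
  have hBc : {f : ∀ j, X j | ¬ ∀ j k : Fin (n + 1), k.val = j.val + 1 → f k ∈ O j k (f j)} = Bᶜ := rfl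
  rw [hBc]
  have h2 : B.ncard + Bᶜ.ncard = ∏ j, Nat.card (X j) := by
    rw [Set.ncard_add_ncard_compl, Nat.card_pi]
  have h4 : 4 ≤ 2 ^ n := by
    calc 4 = 2 ^ 2 := by norm_num
      _ ≤ 2 ^ n := Nat.pow_le_pow_right (by norm_num) (by omega)
  have h3 : 4 * B.ncard ≤ ∏ j, Nat.card (X j) := (Nat.mul_le_mul_right _ h4).trans h1
  have h5 : 3 * ∏ j, Nat.card (X j) ≤ 4 * Bᶜ.ncard := by omega
  refine ⟨?_, h5⟩
  have h6 : 2 ^ (n + 1) * ∏ j, s j ≤ ∏ j, Nat.card (X j) := by
    calc 2 ^ (n + 1) * ∏ j, s j = ∏ j, 2 * s j := by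
          rw [Finset.prod_mul_distrib, Finset.prod_const, Finset.card_univ, Fintype.card_fin]
      _ ≤ _ := Finset.prod_le_prod' fun j _ => hs j
  have h7 : 8 * (n + 1) ≤ 3 * 2 ^ (n + 1) := by
    have : ∀ m : ℕ, 8 * (m + 2 + 1) ≤ 3 * 2 ^ (m + 2 + 1) := by
      intro m
      induction m with
      | zero => norm_num
      | succ m ih =>
        have e : 2 ^ (m + 1 + 2 + 1) = 2 * 2 ^ (m + 2 + 1) := by ring
        rw [e]
        omega
    have := this (n - 2)
    rwa [show n - 2 + 2 + 1 = n + 1 by omega] at this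
  have h8 : 4 * (2 * (n + 1) * ∏ j, s j) ≤ 4 * Bᶜ.ncard := by
    calc 4 * (2 * (n + 1) * ∏ j, s j) = (8 * (n + 1)) * ∏ j, s j := by ring
      _ ≤ (3 * 2 ^ (n + 1)) * ∏ j, s j := Nat.mul_le_mul_right _ h7
      _ = 3 * (2 ^ (n + 1) * ∏ j, s j) := by ring
      _ ≤ 3 * ∏ j, Nat.card (X j) := Nat.mul_le_mul_left _ h6
      _ ≤ _ := h5
  omega

end Pool.Agent.L7h27.SI
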