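import Pool.Agent.L7h27.SI.Stm

/-! # Project SI (helper27), part DEC (helper12): the decomposition -/

set_option autoImplicit false

namespace Pool.Agent.L7h27.SI

open Finset

namespace DEC

variable {V : Type} [AddCommGroup V]

theorem mul_ap (f g : AddMonoid.End V) (v : V) : (f * g) v = f (g v) := rfl

theorem pow_fix {z : AddMonoid.End V} {v : V} (h : z v = v) (k : ℕ) : (z ^ k) v = v := by
  induction k with
  | zero => simp
  | succ k ih => rw [pow_succ, DEC.mul_ap, h, ih]

theorem pow_mod {z : AddMonoid.End V} {p : ℕ} (hz : z ^ p = 1) (k : ℕ) : z ^ (k % p) = z ^ k := by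
  conv_rhs => rw [← Nat.mod_add_div k p, pow_add, pow_mul, hz, one_pow, mul_one]

/-- the powers `z ^ k`, `p ∤ k`, fix only `0` -/
theorem pow_free {z : AddMonoid.End V} {p : ℕ} (hp : p.Prime) (hz : z ^ p = 1) (h0 : ∀ v, z v = v → v = 0)
    {k : ℕ} (hk : ¬ p ∣ k) (v : V) (hv : (z ^ k) v = v) : v = 0 := by
  have hc : Nat.Coprime k p := ((Nat.Prime.coprime_iff_not_dvd hp).2 hk).symm
  obtain ⟨m, -, hm⟩ := Nat.exists_mul_mod_eq_one_of_coprime hc hp.one_lt
  apply h0
  have h1 : ((z ^ k) ^ m) v = v := pow_fix hv m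
  rw [← pow_mul, ← pow_mod hz, hm, pow_one] at h1
  exact h1

/-- the sum over the powers of `y`, `y ^ p = 1`, `y` fixing only `0`, is `0` -/
theorem sum_pow {y : AddMonoid.End V} {p : ℕ} (hy : y ^ p = 1) (h0 : ∀ v, y v = v → v = 0) (v : V) :
    ∑ j ∈ range p, (y ^ j) v = 0 := by
  apply h0
  rw [map_sum]
  have h1 : ∀ j, y ((y ^ j) v) = (y ^ (j + 1)) v := by
    intro j; rw [pow_succ', DEC.mul_ap]
  simp only [h1]
  have h2 := Finset.sum_range_succ (fun j => (y ^ j) v) p
  have h3 := Finset.sum_range_succ' (fun j => (y ^ j) v) p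
  rw [h2] at h3
  simp only [hy, pow_zero] at h3
  exact (add_right_cancel h3).symm

/-- `p` times is injective and surjective -/
theorem p_bij [Finite V] {p : ℕ} (hp : p.Prime) (hV : ¬ p ∣ Nat.card V) : Function.Bijective fun v : V => p • v :=
  (nsmulCoprime (((Nat.Prime.coprime_iff_not_dvd hp).2 hV).symm)).bijective

end DEC

theorem s_DEC : S_DEC := by
  intro V _ _ p hp hV z a hza hz ha h0
  have hcom : Commute z a := hza
  have hp0 := hp.pos
  -- `π j v`
  let π : ℕ → V → V := fun j v => ∑ k ∈ range p, ((a * z ^ j) ^ k) v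
  have hpi_add : ∀ j v w, π j (v + w) = π j v + π j w := by
    intro j v w
    simp only [π, map_add, Finset.sum_add_distrib]
  have hpi_zero : ∀ j, π j 0 = 0 := by
    intro j; simp only [π, map_zero, Finset.sum_const_zero]
  have hpow1 : ∀ j, (a * z ^ j) ^ p = 1 := by
    intro j
    rw [(hcom.pow_left j).symm.mul_pow, ha, one_mul, ← pow_mul, mul_comm j p, pow_mul, hz, one_pow]
  -- values in `V j`
  have hfix : ∀ j v, a ((z ^ j) (π j v)) = π j v := by
    intro j v
    have h1 : a ((z ^ j) (π j v)) = (a * z ^ j) (π j v) := rfl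
    rw [h1]
    simp only [π, map_sum]
    have h2 : ∀ k, (a * z ^ j) (((a * z ^ j) ^ k) v) = ((a * z ^ j) ^ (k + 1)) v := by
      intro k
      rw [pow_succ' (a * z ^ j) k]
      rfl
    simp only [h2]
    have h3 := Finset.sum_range_succ (fun k => ((a * z ^ j) ^ k) v) p
    have h4 := Finset.sum_range_succ' (fun k => ((a * z ^ j) ^ k) v) p
    rw [h3] at h4
    simp only [hpow1, pow_zero] at h4
    exact (add_right_cancel h4).symm
  -- the sum of the `π j`
  have hsum : ∀ v, ∑ j ∈ range p, π j v = p • v := by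
    intro v
    simp only [π]
    rw [Finset.sum_comm]
    have h1 : ∀ k ∈ range p, ∑ j ∈ range p, ((a * z ^ j) ^ k) v = if k = 0 then p • v else 0 := by
      intro k hk
      split_ifs with hk0
      · subst hk0
        simp
      · have h2 : ∀ j, ((a * z ^ j) ^ k) v = (a ^ k) (((z ^ k) ^ j) v) := by
          intro j
          rw [(hcom.pow_left j).symm.mul_pow, DEC.mul_ap, ← pow_mul, ← pow_mul, mul_comm j k]
        simp only [h2]
        rw [← map_sum, DEC.sum_pow (by rw [← pow_mul, mul_comm, pow_mul, hz, one_pow]) ?_, map_zero]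
        intro w hw
        refine DEC.pow_free hp hz h0 (fun hd => ?_) w hw
        exact absurd (Nat.le_of_dvd (Nat.pos_of_ne_zero hk0) hd) (not_le.2 (Finset.mem_range.1 hk))
    rw [Finset.sum_congr rfl h1, Finset.sum_ite_eq' (range p) 0]
    simp [hp0]
  -- `π j` on `V j'`
  have hon : ∀ j < p, ∀ j' < p, ∀ v, a ((z ^ j') v) = v → π j v = if j = j' then p • v else 0 := by
    intro j hj j' hj' v hv
    have h1 : (a * z ^ j) v = (z ^ (j + (p - j'))) v := by
      have h2 : a v = (z ^ (p - j')) v := by
        have h3 : (z ^ j') (a v) = v := by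
          have : (z ^ j') (a v) = (z ^ j' * a) v := rfl
          rw [this, (hcom.pow_left j').eq]
          exact hv
        calc a v = (z ^ p) (a v) := by rw [hz]; rfl
          _ = (z ^ (p - j')) ((z ^ j') (a v)) := by
            rw [← DEC.mul_ap (z ^ (p - j')) (z ^ j'), ← pow_add, Nat.sub_add_cancel hj'.le]
          _ = _ := by rw [h3]
      have h4 : (a * z ^ j) v = (z ^ j * a) v := by rw [(hcom.pow_left j).eq]
      rw [h4, DEC.mul_ap, h2, ← DEC.mul_ap, ← pow_add]
    have h5 : ∀ k, ((a * z ^ j) ^ k) v = ((z ^ (j + (p - j'))) ^ k) v := by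
      intro k
      induction k with
      | zero => simp
      | succ k ih =>
        have hc2 : Commute (a * z ^ j) (z ^ (j + (p - j'))) :=
          Commute.mul_left (hcom.pow_left _).symm ((Commute.refl z).pow_pow _ _)
        calc ((a * z ^ j) ^ (k + 1)) v = (a * z ^ j) (((a * z ^ j) ^ k) v) := by
              rw [pow_succ', DEC.mul_ap]
          _ = (a * z ^ j) (((z ^ (j + (p - j'))) ^ k) v) := by rw [ih]
          _ = ((z ^ (j + (p - j'))) ^ k) ((a * z ^ j) v) := by
              rw [← DEC.mul_ap, (hc2.pow_right k).eq, DEC.mul_ap]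
          _ = _ := by rw [h1, ← DEC.mul_ap, ← pow_succ]
    simp only [π, h5]
    split_ifs with hjj
    · subst hjj
      have : z ^ (j + (p - j)) = 1 := by rw [Nat.add_sub_cancel' hj.le, hz]
      rw [this]
      simp
    · refine DEC.sum_pow (by rw [← pow_mul, mul_comm, pow_mul, hz, one_pow]) ?_ v
      intro w hw
      refine DEC.pow_free hp hz h0 (fun hd => hjj ?_) w hw
      obtain ⟨c, hc⟩ := hd
      have hc1 : c = 1 := by
        rcases Nat.lt_trichotomy c 1 with h | h | h
        · have : c = 0 := by omega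
          subst this
          omega
        · exact h
        · have : p * 2 ≤ p * c := Nat.mul_le_mul_left _ h
          omega
      subst hc1
      omega
  have hbij := DEC.p_bij hp hV
  constructor
  · intro f g hfg
    funext j
    apply Subtype.ext
    apply hbij.1
    have h1 : ∀ f : (∀ j : Fin p, Vj z a j), π j (∑ i, (f i : V)) = p • (f j : V) := by
      intro f
      have h2 : π j (∑ i, (f i : V)) = ∑ i, π j (f i : V) := by
        let φ : V →+ V := { toFun := π j, map_zero' := hpi_zero j, map_add' := hpi_add j }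
        exact map_sum φ _ _
      rw [h2, Finset.sum_eq_single j]
      · rw [hon j j.2 j j.2 (f j : V) (f j).2, if_pos rfl]
      · intro i _ hij
        rw [hon j j.2 i i.2 (f i : V) (f i).2, if_neg]
        intro h; exact hij (Fin.ext h.symm)
      · intro h; exact absurd (Finset.mem_univ j) h
    show p • (f j : V) = p • (g j : V)
    rw [← h1 f, ← h1 g]
    exact congrArg _ hfg
  · intro v
    obtain ⟨u, hu⟩ := hbij.2 v
    refine ⟨fun j => ⟨π j u, hfix j u⟩, ?_⟩
    show ∑ j : Fin p, π j u = v
    rw [Fin.sum_univ_eq_sum_range (fun j => π j u) p, hsum]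
    exact hu

end Pool.Agent.L7h27.SI
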