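import Pool.Agent.L7h27.SI.Stm

/-! Project SI: FREE (by helper99). -/

set_option autoImplicit false

namespace Pool.Agent.L7h27.SI

open Finset

namespace H99

theorem index_dvd {V : Type} [AddCommGroup V] [Finite V] {N : Type} [Group N] [Finite N]
    (r : N →* AddMonoid.End V) (hfree : ∀ g : N, r g ≠ 1 → ∀ v : V, r g v = v → v = 0) :
    r.ker.index ∣ Nat.card V - 1 := by
  classical
  have hinv : ∀ (g : N) (v : V), r g⁻¹ (r g v) = v := by
    intro g v
    have h1 : (r g⁻¹ * r g) v = v := by
      rw [← map_mul, inv_mul_cancel, map_one]
      rfl
    exact h1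
  letI act : MulAction N {v : V // v ≠ 0} :=
    { smul := fun g v => ⟨r g v.1, fun h => v.2 (by
        have h1 := hinv g v.1
        rw [h, map_zero] at h1
        exact h1.symm)⟩
      one_smul := fun v => Subtype.ext (by
        show r 1 v.1 = v.1
        rw [map_one]
        rfl)
      mul_smul := fun g h v => Subtype.ext (by
        show r (g * h) v.1 = r g (r h v.1)
        rw [map_mul]
        rfl) }
  have hstab : ∀ v : {v : V // v ≠ 0}, MulAction.stabilizer N v = r.ker := by
    intro v
    ext g
    rw [MulAction.mem_stabilizer_iff, MonoidHom.mem_ker]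
    constructor
    · intro h
      by_contra hne
      exact v.2 (hfree g hne v.1 (congrArg Subtype.val h))
    · intro h
      apply Subtype.ext
      show r g v.1 = v.1
      rw [h]
      rfl
  have hcard : Nat.card {v : V // v ≠ 0} = Nat.card V - 1 := by
    have h1 := Set.ncard_add_ncard_compl ({0} : Set V)
    rw [Set.ncard_singleton] at h1
    have h2 : Nat.card {v : V // v ≠ 0} = ({0}ᶜ : Set V).ncard := rfl
    omega
  rw [← hcard]
  haveI : Fintype (Quotient (MulAction.orbitRel N {v : V // v ≠ 0})) := Fintype.ofFinite _
  rw [Nat.card_congr (MulAction.selfEquivSigmaOrbitsQuotientStabilizer N {v : V // v ≠ 0}),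
    Nat.card_sigma]
  apply Finset.dvd_sum
  intro ω _
  rw [hstab]
  exact dvd_rfl

end H99

theorem s_FREE : S_FREE := by
  intro V _ ι N _ p ρ hyp hnt hirr hfree w
  classical
  haveI := hyp.finV
  haveI := hyp.finI
  haveI := Fintype.ofFinite ι
  haveI := fun i => hyp.finN i
  set T : Finset ι := Finset.univ.filter (fun i => (ρ i).ker.index ≠ 1) with hT
  set m := Nat.card V with hm
  have hm2 : 2 ≤ m := Finite.one_lt_card
  have hgd : m ≤ gd ρ w + T.card := by
    have h1 : {v : V | Good ρ w v}ᶜ ⊆ ((T.image (fun i => - w i) : Finset V) : Set V) := by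
      intro v hv
      have hv' : ¬ Good ρ w v := hv
      unfold Good at hv'
      push Not at hv'
      obtain ⟨i, g, h1, h2⟩ := hv'
      have h3 := hfree i g h2 _ h1
      rw [Finset.coe_image]
      refine ⟨i, ?_, ?_⟩
      · rw [hT, Finset.mem_coe, Finset.mem_filter]
        refine ⟨Finset.mem_univ _, ?_⟩
        intro h4
        rw [Subgroup.index_eq_one] at h4
        apply h2
        have h5 : g ∈ (ρ i).ker := by
          rw [h4]
          exact Subgroup.mem_top g
        exact h5
      · exact (eq_neg_of_add_eq_zero_left h3).symm
    have h2 : ({v : V | Good ρ w v}ᶜ).ncard ≤ T.card :=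
      calc ({v : V | Good ρ w v}ᶜ).ncard ≤ ((T.image (fun i => - w i) : Finset V) : Set V).ncard :=
            Set.ncard_le_ncard h1 (Finset.finite_toSet _)
        _ = (T.image (fun i => - w i)).card := Set.ncard_coe_finset _
        _ ≤ T.card := Finset.card_image_le
    have h3 := Set.ncard_add_ncard_compl {v : V | Good ρ w v}
    have h4 : gd ρ w = {v : V | Good ρ w v}.ncard := rfl
    omega
  have hpow : ∀ i, ∃ a, (ρ i).ker.index = p i ^ a := by
    intro i
    haveI : Fact (p i).Prime := ⟨hyp.prime i⟩
    exact (hyp.pg i).index _
  have hp3 : ∀ i, 3 ≤ p i := by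
    intro i
    have h1 := (hyp.prime i).two_le
    have h2 := hyp.odd i
    omega
  have hT3 : ∀ i ∈ T, 3 ≤ (ρ i).ker.index := by
    intro i hi
    rw [hT, Finset.mem_filter] at hi
    obtain ⟨a, ha⟩ := hpow i
    have h0 : a ≠ 0 := by
      rintro rfl
      exact hi.2 (by rw [ha, pow_zero])
    rw [ha]
    calc 3 ≤ p i := hp3 i
      _ = p i ^ 1 := (pow_one _).symm
      _ ≤ p i ^ a := Nat.pow_le_pow_right (by have := hp3 i; omega) (by omega)
  have hT1 : ∀ i, i ∉ T → (ρ i).ker.index = 1 := by
    intro i hi
    by_contra h
    exact hi (by rw [hT, Finset.mem_filter]; exact ⟨Finset.mem_univ _, h⟩)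
  have hdvd : ∏ i ∈ T, (ρ i).ker.index ∣ m - 1 := by
    apply Finset.prod_dvd_of_isRelPrime
    · intro i _ j _ hij
      obtain ⟨a, ha⟩ := hpow i
      obtain ⟨b, hb⟩ := hpow j
      show IsRelPrime _ _
      rw [← Nat.coprime_iff_isRelPrime]
      show Nat.Coprime (ρ i).ker.index (ρ j).ker.index
      rw [ha, hb]
      apply Nat.Coprime.pow
      exact (Nat.coprime_primes (hyp.prime i) (hyp.prime j)).2 (fun h => hij (hyp.inj h))
    · intro i _
      exact H99.index_dvd (ρ i) (hfree i)
  have hle : ∏ i ∈ T, (ρ i).ker.index ≤ m - 1 := Nat.le_of_dvd (by omega) hdvd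
  -- the main inequality
  have main : 2 + T.card ≤ m ∧ ∀ i, 2 * (ρ i).ker.index + T.card ≤ m := by
    rcases Nat.lt_or_ge T.card 2 with hk | hk
    · rcases Nat.lt_or_ge T.card 1 with hk0 | hk1
      · have hT0 : T = ∅ := Finset.card_eq_zero.1 (by omega)
        refine ⟨by omega, fun i => ?_⟩
        rw [hT1 i (by rw [hT0]; exact Finset.notMem_empty i)]
        omega
      · have hk1' : T.card = 1 := by omega
        obtain ⟨i₀, hi₀⟩ := Finset.card_eq_one.1 hk1'
        have hmem : i₀ ∈ T := by rw [hi₀]; exact Finset.mem_singleton_self _
        have h3 := hT3 i₀ hmem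
        rw [hi₀, Finset.prod_singleton] at hdvd
        obtain ⟨c, hc⟩ := hdvd
        have hc1 : 2 ≤ c := by
          by_contra hcon
          have hc0 : c ≠ 0 := by
            rintro rfl
            omega
          have hc1 : c = 1 := by omega
          rw [hc1, mul_one] at hc
          obtain ⟨a, ha⟩ := hpow i₀
          have ha0 : 1 ≤ a := by
            by_contra h
            have : a = 0 := by omega
            rw [this, pow_zero] at ha
            omega
          have hodd : Odd (p i₀ ^ a) := ((hyp.prime i₀).odd_of_ne_two (hyp.odd i₀)).pow
          have heven : 2 ∣ m := by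
            obtain ⟨q, hq⟩ := hodd
            omega
          -- the two-torsion
          let U : AddSubgroup V :=
            { carrier := {v | v + v = 0}
              zero_mem' := by simp
              add_mem' := by
                intro x y hx hy
                have hx' : x + x = 0 := hx
                have hy' : y + y = 0 := hy
                show x + y + (x + y) = 0
                calc x + y + (x + y) = (x + x) + (y + y) := by abel
                  _ = 0 := by rw [hx', hy', add_zero]
              neg_mem' := by
                intro x hx
                have hx' : x + x = 0 := hx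
                show -x + -x = 0
                calc -x + -x = -(x + x) := by abel
                  _ = 0 := by rw [hx', neg_zero] }
          have hUinv : Inv ρ U := by
            intro i g u hu
            have hu' : u + u = 0 := hu
            show ρ i g u + ρ i g u = 0
            rw [← map_add, hu', map_zero]
          obtain ⟨x, hx⟩ := exists_prime_addOrderOf_dvd_card' (G := V) 2 (by rw [← hm]; exact heven)
          have hx2 : x + x = 0 := by
            have h1 := addOrderOf_nsmul_eq_zero x
            rw [hx, two_nsmul] at h1
            exact h1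
          have hx0 : x ≠ 0 := by
            rintro rfl
            rw [addOrderOf_zero] at hx
            omega
          have hU : U = ⊤ := by
            rcases hirr U hUinv with h | h
            · exfalso
              apply hx0
              have : x ∈ U := hx2
              rw [h] at this
              exact this
            · exact h
          have hpg : IsPGroup 2 (Multiplicative V) := by
            intro g
            refine ⟨1, ?_⟩
            have h1 : Multiplicative.toAdd g ∈ U := by
              rw [hU]
              exact AddSubgroup.mem_top _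
            have h2 : Multiplicative.toAdd g + Multiplicative.toAdd g = 0 := h1
            rw [pow_one, pow_two]
            exact h2
          haveI : Fact (Nat.Prime 2) := ⟨Nat.prime_two⟩
          obtain ⟨b, hb⟩ := IsPGroup.iff_card.1 hpg
          have hb' : m = 2 ^ b := hb
          apply hyp.mers i₀ a b ha0
          · rw [← hm, hb']
          · rw [← ha, ← hb']
            omega
        have h4 : 2 * (ρ i₀).ker.index ≤ m - 1 := by
          rw [hc]
          nlinarith
        refine ⟨by omega, fun i => ?_⟩
        by_cases hi : i = i₀
        · rw [hi]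
          omega
        · rw [hT1 i (by rw [hi₀, Finset.mem_singleton]; exact hi)]
          omega
    · -- at least two
      have hbig : ∀ i ∈ T, (ρ i).ker.index * 3 ^ (T.card - 1) ≤ m - 1 := by
        intro i hi
        refine le_trans ?_ hle
        rw [← Finset.mul_prod_erase T _ hi]
        apply Nat.mul_le_mul_left
        rw [← Finset.card_erase_of_mem hi]
        exact Finset.pow_card_le_prod _ _ _ (fun j hj => hT3 j (Finset.mem_of_mem_erase hj))
      have h3k : ∀ k : ℕ, 1 ≤ k → k + 2 ≤ 3 ^ k := by
        intro k hk
        induction k, hk using Nat.le_induction with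
        | base => norm_num
        | succ k hk ih =>
          rw [pow_succ]
          omega
      have h3 := h3k (T.card - 1) (by omega)
      have hmain : ∀ i ∈ T, 2 * (ρ i).ker.index + T.card ≤ m := by
        intro i hi
        have h4 := hbig i hi
        have h5 := hT3 i hi
        have h6 : (ρ i).ker.index * ((T.card - 1) + 2) ≤ (ρ i).ker.index * 3 ^ (T.card - 1) :=
          Nat.mul_le_mul_left _ h3
        have h7 : (T.card - 1) ≤ (ρ i).ker.index * (T.card - 1) :=
          Nat.le_mul_of_pos_left _ (by omega)
        have h8 : (ρ i).ker.index * ((T.card - 1) + 2) =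
            (ρ i).ker.index * (T.card - 1) + 2 * (ρ i).ker.index := by ring
        omega
      obtain ⟨j, hj⟩ : T.Nonempty := Finset.card_pos.1 (by omega)
      have hj1 := hmain j hj
      have hj2 := hT3 j hj
      refine ⟨by omega, fun i => ?_⟩
      by_cases hi : i ∈ T
      · exact hmain i hi
      · rw [hT1 i hi]
        omega
  refine ⟨by have := main.1; omega, fun i => by have := main.2 i; omega⟩

end Pool.Agent.L7h27.SI
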