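import Pool.Agent.L7h27.SI.Stm

/-!
# Project SI: SOLV, the assembly for solvable groups
-/

set_option autoImplicit false

namespace Pool.Agent.L7h27.SI

namespace Solv

/-- a nontrivial solvable group has a nontrivial abelian normal subgroup -/
lemma exists_abelian (G : Type) [Group G] [Nontrivial G] (h : Group.IsSolvable G) :
    ∃ A : Subgroup G, A.Normal ∧ (∀ x ∈ A, ∀ y ∈ A, x * y = y * x) ∧ A ≠ ⊥ := by
  classical
  have hex : ∃ n, derivedSeries G n = ⊥ := h.solvable
  have h0 : Nat.find hex ≠ 0 := by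
    intro h0
    have h1 := Nat.find_spec hex
    rw [h0, derivedSeries_zero] at h1
    exact top_ne_bot h1
  obtain ⟨m, hm⟩ := Nat.exists_eq_succ_of_ne_zero h0
  have h1 := Nat.find_spec hex
  have h2 : derivedSeries G m ≠ ⊥ := Nat.find_min hex (by omega)
  rw [hm, Nat.succ_eq_add_one, derivedSeries_succ,
    Subgroup.commutator_eq_bot_iff_le_centralizer] at h1
  refine ⟨derivedSeries G m, derivedSeries_normal G m, fun x hx y hy => ?_, h2⟩
  have h3 := h1 hx
  rw [Subgroup.mem_centralizer_iff] at h3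
  exact (h3 y hy).symm

/-- the elements of order dividing `r` of an abelian normal subgroup -/
lemma exists_elem (G : Type) [Group G] [Finite G] [Nontrivial G] (h : Group.IsSolvable G) :
    ∃ r : ℕ, r.Prime ∧ ∃ V : Subgroup G, V.Normal ∧ (∀ x ∈ V, ∀ y ∈ V, x * y = y * x) ∧ V ≠ ⊥ ∧
      IsPGroup r V := by
  obtain ⟨A, hA, hc, hne⟩ := exists_abelian G h
  have hcard : Nat.card A ≠ 1 := fun h1 => hne (Subgroup.card_eq_one.1 h1)
  obtain ⟨r, hr, hdvd⟩ := Nat.exists_prime_and_dvd hcard
  haveI := Fact.mk hr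
  let V : Subgroup G :=
    { carrier := {x | x ∈ A ∧ x ^ r = 1}
      one_mem' := ⟨A.one_mem, one_pow r⟩
      mul_mem' := by
        rintro x y ⟨hx, hx1⟩ ⟨hy, hy1⟩
        refine ⟨A.mul_mem hx hy, ?_⟩
        have h1 : Commute x y := hc x hx y hy
        rw [h1.mul_pow, hx1, hy1, one_mul]
      inv_mem' := by
        rintro x ⟨hx, hx1⟩
        exact ⟨A.inv_mem hx, by rw [inv_pow, hx1, inv_one]⟩ }
  have hV : ∀ x, x ∈ V ↔ x ∈ A ∧ x ^ r = 1 := fun x => Iff.rfl
  refine ⟨r, hr, V, ⟨?_⟩, ?_, ?_, ?_⟩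
  · intro n hn g
    rw [hV] at hn ⊢
    refine ⟨hA.conj_mem n hn.1 g, ?_⟩
    rw [conj_pow, hn.2, mul_one, mul_inv_cancel]
  · intro x hx y hy
    exact hc x ((hV x).1 hx).1 y ((hV y).1 hy).1
  · intro hbot
    obtain ⟨x, hx⟩ := exists_prime_orderOf_dvd_card' (G := A) r hdvd
    have h1 : (x : G) ∈ V := by
      rw [hV]
      refine ⟨x.2, ?_⟩
      have h2 := pow_orderOf_eq_one x
      rw [hx] at h2
      have h3 := congrArg (Subtype.val) h2
      simpa using h3
    rw [hbot, Subgroup.mem_bot] at h1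
    have h4 : x = 1 := Subtype.ext h1
    rw [h4, orderOf_one] at hx
    exact hr.one_lt.ne hx
  · intro x
    refine ⟨1, ?_⟩
    rw [pow_one]
    apply Subtype.ext
    have h1 := ((hV x).1 x.2).2
    simpa using h1

end Solv

theorem s_SOLV : S_SOLV := by
  intro hstep
  have key : ∀ n : ℕ, ∀ (G : Type) [Group G] [Finite G], Group.IsSolvable G → Nat.card G = n →
      Sim G := by
    intro n
    induction n using Nat.strong_induction_on with
    | _ n ih =>
      intro G _ _ hG hn
      rcases subsingleton_or_nontrivial G with hs | hs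
      · intro ι _ p _ _ _ _ P
        refine ⟨1, fun i => ⟨fun a ha g => ?_⟩⟩
        rwa [Subsingleton.elim (g * a * g⁻¹) a]
      · obtain ⟨r, hr, V, hVn, hVc, hVne, hVp⟩ := Solv.exists_elem G hG
        have hq : Group.IsSolvable (G ⧸ V) :=
          solvable_of_surjective (QuotientGroup.mk'_surjective V)
        have hcard : Nat.card (G ⧸ V) < n := by
          have h1 := V.card_eq_card_quotient_mul_card_subgroup
          have h2 : 1 < Nat.card V := by
            have h3 : Nat.card V ≠ 1 := fun h => hVne (Subgroup.card_eq_one.1 h)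
            have h4 : 0 < Nat.card V := Nat.card_pos
            omega
          have h5 : 0 < Nat.card (G ⧸ V) := Nat.card_pos
          rw [← hn, h1]
          exact lt_mul_of_one_lt_right h5 h2
        exact hstep G r hr V hVc hVne hVp (ih _ hcard (G ⧸ V) hq rfl)
  intro G _ _ hG
  exact key _ G hG rfl

end Pool.Agent.L7h27.SI
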