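import Mathlib
import Pool.Agent.L7h27.SI.Pt
import Pool.Agent.L7h27.SI.Solv
import Pool.Agent.L7h27.SI.ACT
import Pool.Agent.L7h27.SI.BST
import Pool.Agent.L7h27.SI.CLM
import Pool.Agent.L7h27.SI.CNT
import Pool.Agent.L7h27.SI.DEC
import Pool.Agent.L7h27.SI.FREE
import Pool.Agent.L7h27.SI.Blk
import Pool.Agent.L7h65.SI.Red
import Pool.Agent.L7h45.SI.Za

/-!
# Project SI: the reduction modulo a solvable normal subgroup
-/

set_option autoImplicit false

namespace Pool.Agent.L7h27.SI

open Finset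

namespace GenAux

/-- a nontrivial solvable normal subgroup contains a nontrivial abelian `r`-subgroup normal in the group -/
lemma exists_in (G : Type) [Group G] [Finite G] (R : Subgroup G) [R.Normal] (hR : Group.IsSolvable R) (hne : R ≠ ⊥) :
    ∃ r : ℕ, r.Prime ∧ ∃ V : Subgroup G, V.Normal ∧ V ≤ R ∧ (∀ x ∈ V, ∀ y ∈ V, x * y = y * x) ∧ V ≠ ⊥ ∧ IsPGroup r V := by
  classical
  have hA : ∃ A : Subgroup G, A.Normal ∧ A ≤ R ∧ (∀ x ∈ A, ∀ y ∈ A, x * y = y * x) ∧ A ≠ ⊥ := by
    have hex : ∃ n, derivedSeries R n = ⊥ := hR.solvable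
    have h0 : Nat.find hex ≠ 0 := by
      intro h0
      have h1 := Nat.find_spec hex
      rw [h0, derivedSeries_zero] at h1
      apply hne
      rw [Subgroup.eq_bot_iff_forall]
      intro x hx
      have h2 : (⟨x, hx⟩ : R) ∈ (⊤ : Subgroup R) := trivial
      rw [h1, Subgroup.mem_bot] at h2
      exact congrArg Subtype.val h2
    obtain ⟨m, hm⟩ := Nat.exists_eq_succ_of_ne_zero h0
    have h1 := Nat.find_spec hex
    have h2 : derivedSeries R m ≠ ⊥ := Nat.find_min hex (by omega)
    rw [hm, Nat.succ_eq_add_one, derivedSeries_succ, Subgroup.commutator_eq_bot_iff_le_centralizer] at h1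
    refine ⟨(derivedSeries R m).map R.subtype, inferInstance, ?_, ?_, ?_⟩
    · rintro _ ⟨y, _, rfl⟩
      exact y.2
    · rintro _ ⟨x, hx, rfl⟩ _ ⟨y, hy, rfl⟩
      have h3 := h1 hx
      rw [Subgroup.mem_centralizer_iff] at h3
      exact (congrArg Subtype.val (h3 y hy)).symm
    · intro h
      exact h2 ((Subgroup.map_eq_bot_iff_of_injective _ (Subgroup.subtype_injective R)).1 h)
  obtain ⟨A, hAn, hAR, hc, hAne⟩ := hA
  have hcard : Nat.card A ≠ 1 := fun h1 => hAne (Subgroup.card_eq_one.1 h1)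
  obtain ⟨r, hr, hdvd⟩ := Nat.exists_prime_and_dvd hcard
  have := Fact.mk hr
  let V : Subgroup G :=
    { carrier := {x | x ∈ A ∧ x ^ r = 1}
      one_mem' := ⟨A.one_mem, one_pow r⟩
      mul_mem' := by
        rintro x y ⟨hx, hx1⟩ ⟨hy, hy1⟩
        refine ⟨A.mul_mem hx hy, ?_⟩
        have h1 : Commute x y := hc x hx y hy
        rw [h1.mul_pow, hx1, hy1, one_mul]
      inv_mem' := by
        rintro x ⟨hx, hx1⟩
        exact ⟨A.inv_mem hx, by rw [inv_pow, hx1, inv_one]⟩ }
  have hV : ∀ x, x ∈ V ↔ x ∈ A ∧ x ^ r = 1 := fun x => Iff.rfl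
  refine ⟨r, hr, V, ⟨?_⟩, ?_, ?_, ?_, ?_⟩
  · intro n hn g
    rw [hV] at hn ⊢
    refine ⟨hAn.conj_mem n hn.1 g, ?_⟩
    rw [conj_pow, hn.2, mul_one, mul_inv_cancel]
  · intro x hx
    exact hAR ((hV x).1 hx).1
  · intro x hx y hy
    exact hc x ((hV x).1 hx).1 y ((hV y).1 hy).1
  · intro hbot
    obtain ⟨x, hx⟩ := exists_prime_orderOf_dvd_card' (G := A) r hdvd
    have h1 : (x : G) ∈ V := by
      rw [hV]
      refine ⟨x.2, ?_⟩
      have h2 := pow_orderOf_eq_one x
      rw [hx] at h2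
      have h3 := congrArg (Subtype.val) h2
      simpa using h3
    rw [hbot, Subgroup.mem_bot] at h1
    have h4 : x = 1 := Subtype.ext h1
    rw [h4, orderOf_one] at hx
    exact hr.one_lt.ne hx
  · intro x
    refine ⟨1, ?_⟩
    rw [pow_one]
    apply Subtype.ext
    have h1 := ((hV x).1 x.2).2
    simpa using h1

end GenAux

/-- **The claim.** -/
theorem claim : ∀ n, Claim n :=
  s_CLM Pool.Agent.L7h65.SI.s_RED s_FREE Pool.Agent.L7h45.SI.s_ZA (s_BLK s_DEC s_CNT s_BST)

/-- **Reduction modulo a solvable normal subgroup.** -/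
theorem gen (n : ℕ) : ∀ (G : Type) [Group G] [Finite G], Nat.card G = n → ∀ (R : Subgroup G) [R.Normal],
    Group.IsSolvable R → ∀ (ι : Type) [Finite ι] (p : ι → ℕ), (∀ i, (p i).Prime) → Function.Injective p →
    (∀ i, p i ≠ 2) → (∀ i a b, 1 ≤ a → 2 ^ b ∣ Nat.card G → 2 ^ b ≠ p i ^ a + 1) → ∀ P : ∀ i, Sylow (p i) G,
    (∃ y : G, ∀ i, (((P i : Subgroup G) ⊔ R) ⊓ ((P i : Subgroup G) ⊔ R).map (MulAut.conj y).toMonoidHom).Normal) →
    ∃ x : G, ∀ i, ((P i : Subgroup G) ⊓ (P i : Subgroup G).map (MulAut.conj x).toMonoidHom).Normal := by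
  induction n using Nat.strong_induction_on with
  | _ n ih =>
    intro G _ _ hn R _ hR ι _ p hp hinj h2 hmers P hy
    by_cases hbot : R = ⊥
    · obtain ⟨y, hy⟩ := hy
      refine ⟨y, fun i => ?_⟩
      have := hy i
      rwa [hbot, sup_bot_eq] at this
    obtain ⟨r, hr, V, hVn, hVR, hVc, hVne, hVp⟩ := GenAux.exists_in G R hR hbot
    refine s_PT (s_ACT claim) G r hr V hVc hVne hVp ι p hp hinj h2 hmers P ?_
    have hπ : Function.Surjective (QuotientGroup.mk' V) := QuotientGroup.mk'_surjective V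
    have hcard : Nat.card (G ⧸ V) < n := by
      have h1 := V.card_eq_card_quotient_mul_card_subgroup
      have h2 : 1 < Nat.card V := by
        have h3 : Nat.card V ≠ 1 := fun h => hVne (Subgroup.card_eq_one.1 h)
        have h4 : 0 < Nat.card V := Nat.card_pos
        omega
      have h5 : 0 < Nat.card (G ⧸ V) := Nat.card_pos
      rw [← hn, h1]
      exact lt_mul_of_one_lt_right h5 h2
    have hfact : ∀ i, Fact (p i).Prime := fun i => ⟨hp i⟩
    have hRn : (R.map (QuotientGroup.mk' V)).Normal := Subgroup.Normal.map inferInstance _ hπ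
    have hRs : Group.IsSolvable (R.map (QuotientGroup.mk' V)) :=
      solvable_of_surjective ((QuotientGroup.mk' V).subgroupMap_surjective R)
    obtain ⟨y, hy⟩ := hy
    have key := ih _ hcard (G ⧸ V) rfl (R.map (QuotientGroup.mk' V)) hRs ι p hp hinj h2
      (fun i a b ha hb => hmers i a b ha (hb.trans (Subgroup.card_quotient_dvd_card V)))
      (fun i => (P i).mapSurjective hπ) ⟨QuotientGroup.mk' V y, ?_⟩
    · exact key
    intro i
    set A : Subgroup G := (P i : Subgroup G) ⊔ R with hA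
    have hVA : V ≤ A := hVR.trans le_sup_right
    have hVB : V ≤ A.map (MulAut.conj y).toMonoidHom := by
      intro v hv
      rw [Pool.Agent.L7h65.SI.mc]
      apply hVA
      have := hVn.conj_mem v hv y⁻¹
      rwa [inv_inv] at this
    have e1 : (((P i).mapSurjective hπ : Sylow (p i) (G ⧸ V)) : Subgroup (G ⧸ V)) ⊔ R.map (QuotientGroup.mk' V) =
        A.map (QuotientGroup.mk' V) := by
      rw [hA, Subgroup.map_sup]
      rfl
    have e2 : (A.map (QuotientGroup.mk' V)).map (MulAut.conj (QuotientGroup.mk' V y)).toMonoidHom =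
        (A.map (MulAut.conj y).toMonoidHom).map (QuotientGroup.mk' V) := by
      rw [Subgroup.map_map, Subgroup.map_map]
      rfl
    rw [e1, e2]
    have e3 : A.map (QuotientGroup.mk' V) ⊓ (A.map (MulAut.conj y).toMonoidHom).map (QuotientGroup.mk' V) =
        (A ⊓ A.map (MulAut.conj y).toMonoidHom).map (QuotientGroup.mk' V) := by
      have hk : (QuotientGroup.mk' V).ker = V := QuotientGroup.ker_mk' V
      apply Subgroup.comap_injective hπ
      rw [Subgroup.comap_inf, Subgroup.comap_map_eq_self (by rw [hk]; exact hVA),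
        Subgroup.comap_map_eq_self (by rw [hk]; exact hVB),
        Subgroup.comap_map_eq_self (by rw [hk]; exact le_inf hVA hVB)]
    rw [e3]
    exact Subgroup.Normal.map (hy i) _ hπ

end Pool.Agent.L7h27.SI
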