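import Mathlib
import Pool.Agent.L7h27.SI.Gen

/-!
# Project SI: auxiliary lemmas for the final statement
-/

set_option autoImplicit false

namespace Pool.Agent.L7h27.SI

namespace FinAux

lemma odd_factor (p : ℤ) (hp : Odd p) (k : ℕ) : ∃ Q : ℤ, Odd Q ∧ p ^ (2 * k + 1) + 1 = (p + 1) * Q := by
  induction k with
  | zero => exact ⟨1, odd_one, by ring⟩
  | succ k ih =>
    obtain ⟨Q, hQ, h⟩ := ih
    refine ⟨p ^ 2 * Q - (p - 1), ?_, ?_⟩
    · have h1 : Odd (p ^ 2 * Q) := (hp.pow).mul hQ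
      have h2 : Even (p - 1) := hp.sub_odd odd_one
      exact h1.sub_even h2
    · have h3 : p ^ (2 * (k + 1) + 1) + 1 = p ^ 2 * (p ^ (2 * k + 1) + 1) - (p ^ 2 - 1) := by ring
      rw [h3, h]
      ring

lemma mers {p a b : ℕ} (hp : p.Prime) (h2 : p ≠ 2) (ha : 1 ≤ a) (h : 2 ^ b = p ^ a + 1) : p + 1 = 2 ^ b := by
  have hodd : Odd p := hp.odd_of_ne_two h2
  have hp3 : 3 ≤ p := by
    have := hp.two_le
    omega
  rcases Nat.even_or_odd a with he | ho
  · exfalso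
    obtain ⟨k, hk⟩ := he
    have hk' : p ^ a = p ^ k * p ^ k := by rw [hk, pow_add]
    have h4 : Odd (p ^ k) := hodd.pow
    obtain ⟨m, hm⟩ := h4
    have h5 : p ^ a = 4 * (m * m + m) + 1 := by rw [hk', hm]; ring
    have h6 : p ^ 1 ≤ p ^ a := Nat.pow_le_pow_right (by omega) ha
    rw [pow_one] at h6
    have hb : 2 ≤ b := by
      by_contra hcon
      have : b ≤ 1 := by omega
      have h7 : 2 ^ b ≤ 2 ^ 1 := Nat.pow_le_pow_right (by norm_num) this
      omega
    obtain ⟨c, rfl⟩ := Nat.exists_eq_add_of_le hb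
    rw [pow_add] at h
    omega
  · obtain ⟨k, rfl⟩ := ho
    obtain ⟨Q, hQ, hQe⟩ := odd_factor (p : ℤ) (by exact_mod_cast hodd) k
    have h3 : ((2 : ℤ) ^ b) = ((p : ℤ) + 1) * Q := by
      rw [← hQe]
      exact_mod_cast h
    have h4 : Q.natAbs ∣ 2 ^ b := by
      have h5 : Q ∣ (2 : ℤ) ^ b := ⟨(p : ℤ) + 1, by rw [h3]; ring⟩
      have h6 := Int.natAbs_dvd_natAbs.2 h5
      rwa [Int.natAbs_pow] at h6
    obtain ⟨c, -, hc⟩ := (Nat.dvd_prime_pow Nat.prime_two).1 h4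
    have h5 : Odd Q.natAbs := Int.natAbs_odd.2 hQ
    have h6 : c = 0 := by
      by_contra hcon
      rw [hc] at h5
      exact (Nat.not_odd_iff_even.2 ((Nat.even_pow.2 ⟨even_two, hcon⟩))) h5
    rw [h6, pow_zero] at hc
    have hpos : 0 < Q := by
      by_contra hcon
      have h7 : ((p : ℤ) + 1) * Q ≤ 0 := mul_nonpos_of_nonneg_of_nonpos (by positivity) (by omega)
      have h8 : (0 : ℤ) < 2 ^ b := by positivity
      omega
    have h7 : Q = 1 := by omega
    rw [h7, mul_one] at h3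
    exact_mod_cast h3.symm

end FinAux

end Pool.Agent.L7h27.SI
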