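import Pool.Agent.L7h27.SI.Stm

/-! # Project SI (helper27), part ZA (helper12): the two generators -/

set_option autoImplicit false

namespace Pool.Agent.L7h27.SI

namespace ZA

/-- a nontrivial normal subgroup of a finite `p`-group meets the center nontrivially -/
theorem center_meet {p : ℕ} (hp : p.Prime) {P : Type} [Group P] [Finite P] (hP : IsPGroup p P)
    (A : Subgroup P) [A.Normal] (hA : A ≠ ⊥) : ∃ x ∈ A, x ≠ 1 ∧ ∀ h : P, h * x = x * h := by
  have := Fact.mk hp
  -- `P` acts on `A` by conjugation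
  have hdvd : p ∣ Nat.card A := by
    have hA' : IsPGroup p A := hP.to_subgroup A
    obtain ⟨k, hk⟩ := IsPGroup.iff_card.1 hA'
    have hk0 : k ≠ 0 := by
      rintro rfl
      rw [pow_zero] at hk
      exact hA (Subgroup.card_eq_one.1 hk)
    rw [hk]
    exact dvd_pow_self p hk0
  have hc : IsPGroup p (ConjAct P) := hP.of_equiv ConjAct.toConjAct
  have h1 : (1 : A) ∈ MulAction.fixedPoints (ConjAct P) A := by
    intro g
    exact smul_one g
  obtain ⟨b, hb, hb1⟩ := hc.exists_fixed_point_of_prime_dvd_card_of_fixed_point A hdvd h1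
  refine ⟨b, b.2, fun h => hb1 (Subtype.ext h.symm), fun h => ?_⟩
  have h2 : (ConjAct.toConjAct h • b : A) = b := hb (ConjAct.toConjAct h)
  have h3 : h * (b : P) * h⁻¹ = b := by
    have := congrArg Subtype.val h2
    rwa [ConjAct.Subgroup.val_conj_smul, ConjAct.toConjAct_smul] at this
  calc h * (b : P) = (h * b * h⁻¹) * h := by group
    _ = b * h := by rw [h3]

end ZA

theorem s_ZA (hPD : S_PD) : S_ZA := by
  intro p hp hp2 P _ _ hP hcyc
  obtain ⟨A, hAn, hAc, hAp⟩ := hPD p hp hp2 P hP hcyc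
  have := hAn
  have hF := Fact.mk hp
  have hA : A ≠ ⊥ := by
    rintro rfl
    rw [Subgroup.card_bot] at hAc
    have : 1 < p ^ 2 := Nat.one_lt_pow (by norm_num) hp.one_lt
    omega
  obtain ⟨z, hzA, hz1, hzc⟩ := ZA.center_meet hp hP A hA
  have hzn : (Subgroup.zpowers z).Normal := by
    constructor
    intro x hx g
    obtain ⟨k, rfl⟩ := Subgroup.mem_zpowers_iff.1 hx
    have hc : Commute g z := hzc g
    have : g * z ^ k * g⁻¹ = z ^ k := by
      rw [(hc.zpow_right k).eq]; group
    rw [this]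
    exact hx
  have hoz : orderOf z = p := orderOf_eq_prime (hAp z hzA) hz1
  let π := QuotientGroup.mk' (Subgroup.zpowers z)
  have hπ : Function.Surjective π := QuotientGroup.mk'_surjective _
  have hAn' : (A.map π).Normal := hAn.map π hπ
  have hA' : A.map π ≠ ⊥ := by
    intro h0
    have hle : A ≤ Subgroup.zpowers z := by
      intro x hx
      have : π x ∈ A.map π := Subgroup.mem_map_of_mem _ hx
      rw [h0, Subgroup.mem_bot] at this
      exact (QuotientGroup.eq_one_iff x).1 this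
    have h1 : Nat.card A ≤ Nat.card (Subgroup.zpowers z) :=
      Nat.card_le_card_of_injective _ (Subgroup.inclusion_injective hle)
    rw [hAc, Nat.card_zpowers, hoz] at h1
    have : p * 1 < p * p := Nat.mul_lt_mul_of_pos_left hp.one_lt hp.pos
    nlinarith
  obtain ⟨y, hyA, hy1, hyc⟩ := ZA.center_meet hp (hP.to_quotient (Subgroup.zpowers z)) (A.map π) hA'
  obtain ⟨a, haA, rfl⟩ := Subgroup.mem_map.1 hyA
  refine ⟨z, a, hz1, hAp z hzA, hAp a haA, hzc, fun j hj => hy1 ?_, fun h => ?_⟩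
  · refine (QuotientGroup.eq_one_iff a).2 ?_
    have : a = (z ^ j)⁻¹ := eq_inv_of_mul_eq_one_left hj
    rw [this]
    exact Subgroup.inv_mem _ (Subgroup.npow_mem_zpowers z j)
  · have h1 := hyc (π h)
    rw [← map_mul, ← map_mul] at h1
    have h2 : (h * a)⁻¹ * (a * h) ∈ Subgroup.zpowers z := QuotientGroup.eq.1 h1
    have h3 : a⁻¹ * (h * a * h⁻¹) ∈ Subgroup.zpowers z := by
      have h4 : a⁻¹ * (h * a * h⁻¹) = h * ((h * a)⁻¹ * (a * h))⁻¹ * h⁻¹ := by
        group
      rw [h4]
      exact hzn.conj_mem _ (Subgroup.inv_mem _ h2) h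
    rw [← mem_powers_iff_mem_zpowers] at h3
    obtain ⟨c, hc⟩ := h3
    refine ⟨c, ?_⟩
    have hc' : z ^ c = a⁻¹ * (h * a * h⁻¹) := hc
    rw [hc']
    group

end Pool.Agent.L7h27.SI
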